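import Pool.Agent.Q198.D2GD

set_option autoImplicit false

/-!
# MP_146262_an, Q1: the class of spaces with the D2P is `G_δ`
-/

namespace Pool.Agent.Results.MP_146262_an.D2PGDelta

open Pool.Agent.Q198.D2GD

/-- The class of spaces with the D2P is a `G_δ` subset of `𝒫_∞`; membership in it does not depend
on the choice of the model `X_μ`. -/
theorem result : IsGδ (classOf D2P) ∧
    ∀ (μ : PInf) (X : Type) [NormedAddCommGroup X] [NormedSpace ℝ X], Codes μ.1 X →
      (μ ∈ classOf D2P ↔ D2P X) :=
  ⟨both.1, fun μ X _ _ h => (both.2.2 μ X h).1⟩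

end Pool.Agent.Results.MP_146262_an.D2PGDelta
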